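import Pool.Agent.Lib.helper8.Signs

set_option autoImplicit false

namespace Pool.Agent.Results.MP_db841c_co.Double

open Pool.Agent.Lib.helper8.Signs

def IsVI {V : Type} (G : SimpleGraph V) : Prop :=
  ∃ l v r : V → ℝ, (∀ a, l a < v a ∧ v a < r a) ∧
    Function.Injective (fun a => (l a, v a, r a)) ∧
    ∀ a b, a ≠ b → (G.Adj a b ↔
      (v a < l b ∧ l b < r a ∧ r a < v b) ∨ (v b < l a ∧ l a < r b ∧ r b < v a))

def IsDV {V : Type} (G : SimpleGraph V) : Prop :=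
  ∃ l v w r : V → ℝ, (∀ a, l a < v a ∧ v a < w a ∧ w a < r a) ∧
    Function.Injective (fun a => (l a, v a, w a, r a)) ∧
    ∀ a b, a ≠ b → (G.Adj a b ↔
      (w a < l b ∧ l b < r a ∧ r a < v b) ∨ (w b < l a ∧ l a < r b ∧ r b < v a))

def gz {V : Type} (p : V → ℤ × ℤ × ℤ × ℤ) : SimpleGraph V :=
  SimpleGraph.fromRel (fun a b => (p a).2.2.1 ≤ (p b).1 ∧ (p b).1 < (p a).2.2.2 ∧
    (p a).2.2.2 < (p b).2.1)

theorem gz_dv {V : Type} [Fintype V] (p : V → ℤ × ℤ × ℤ × ℤ)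
    (h : ∀ a, (p a).1 < (p a).2.1 ∧ (p a).2.1 < (p a).2.2.1 ∧ (p a).2.2.1 < (p a).2.2.2) :
    IsDV (gz p) := by
  obtain ⟨δ, d1, d2⟩ := perturb V
  refine ⟨fun a => (p a).1 + δ a, fun a => (p a).2.1, fun a => (p a).2.2.1, fun a => (p a).2.2.2,
    fun a => ?_, fun a b e => d2 (fun a => (p a).1) a b (congrArg Prod.fst e), fun a b hab => ?_⟩
  · simp only [(lt_pert _ _ (d1 a)).2, Int.cast_lt]; exact h a
  · simp only [gz, SimpleGraph.fromRel_adj, ne_eq, hab, not_false_eq_true, true_and,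
      (lt_pert _ _ (d1 _)).2, (lt_pert _ _ (d1 _)).1, Int.cast_lt]

abbrev W (k N : ℕ) := (Fin 4 × Fin k) ⊕ Fin N

def pt {k N : ℕ} (c : Fin N → Fin 4 → Fin k) : W k N → ℤ × ℤ × ℤ × ℤ
  | Sum.inl (s, t) =>
    if s = 0 then (k + t - 2, k + t - 1, k + t, 2 * k)
    else if s = 1 then (-3, -2, -1, 3 * k + t)
    else if s = 2 then (5 * k + t + 1, 8 * k + 1, 8 * k + 2, 8 * k + 3)
    else (6 * k, 7 * k + t + 2, 8 * k + 2, 8 * k + 3)
  | Sum.inr y => (k + c y 0, 3 * k + c y 1 + 1, 5 * k + c y 2 + 1, 7 * k + c y 3 + 1)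

theorem pt_dv {k N : ℕ} (c : Fin N → Fin 4 → Fin k) : IsDV (gz (pt c)) := by
  refine gz_dv _ ?_
  rintro (⟨s, t⟩ | y)
  · have := t.2
    simp only [pt]
    split_ifs <;> simp only <;> omega
  · have := (c y 0).2
    have := (c y 1).2
    have := (c y 2).2
    simp only [pt]
    omega

theorem pt_adj {k N : ℕ} (c : Fin N → Fin 4 → Fin k) (s : Fin 4) (t : Fin k) (y : Fin N) :
    (gz (pt c)).Adj (Sum.inl (s, t)) (Sum.inr y) ↔
      if s.val < 2 then t.val ≤ (c y s).val else (c y s).val ≤ t.val := by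
  have := t.2
  have := (c y 0).2
  have := (c y 1).2
  have := (c y 2).2
  have := (c y 3).2
  obtain rfl | rfl | rfl | rfl : s = 0 ∨ s = 1 ∨ s = 2 ∨ s = 3 := by omega
  all_goals
    simp [gz, pt, SimpleGraph.fromRel_adj]
    omega

theorem pt_inj {k N : ℕ} : Function.Injective (fun c : Fin N → Fin 4 → Fin k => gz (pt c)) := by
  intro c c' e
  funext y s
  simp only at e
  have h1 := pt_adj c s (c y s) y
  have h2 := pt_adj c' s (c y s) y
  have h3 := pt_adj c s (c' y s) y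
  have h4 := pt_adj c' s (c' y s) y
  rw [e] at h1 h3
  have e1 := h1.symm.trans h2
  have e2 := h3.symm.trans h4
  refine Fin.ext ?_
  split_ifs at e1 e2 <;> omega

theorem vi_code {V : Type} [Fintype V] (G : SimpleGraph V) (h : IsVI G) :
    ∃ ρ : Fin 3 × V → Fin (Fintype.card (Fin 3 × V)), G = SimpleGraph.fromRel
      (fun a b => ρ (1, a) < ρ (0, b) ∧ ρ (0, b) < ρ (2, a) ∧ ρ (2, a) < ρ (1, b)) := by
  obtain ⟨l, v, r, -, -, h3⟩ := h
  obtain ⟨ρ, hρ⟩ := ranks (fun x : Fin 3 × V => ![l, v, r] x.1 x.2)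
  refine ⟨ρ, ?_⟩
  ext a b
  simp only [SimpleGraph.fromRel_adj, hρ, Matrix.cons_val]
  exact ⟨fun hab => ⟨hab.ne, (h3 a b hab.ne).1 hab⟩, fun hab => (h3 a b hab.1).2 hab.2⟩

theorem main (k : ℕ) (hk : k = 2 ^ 33) :
    ∃ G : SimpleGraph (W k (60 * k)), IsDV G ∧ ¬ IsVI G := by
  by_contra hc
  push Not at hc
  choose ρ hρ using fun c : Fin (60 * k) → Fin 4 → Fin k => vi_code _ (hc _ (pt_dv c))
  have inj : Function.Injective ρ := fun c c' e => pt_inj (by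
    simp only
    rw [hρ c, hρ c', e])
  have := Fintype.card_le_of_injective ρ inj
  simp only [Fintype.card_fun, Fintype.card_fin, Fintype.card_prod, Fintype.card_sum] at this
  have k0 : 0 < k := by omega
  have e1 : (k ^ 4) ^ (60 * k) = 2 ^ (33 * 4 * (60 * k)) := by
    rw [pow_mul 2 (33 * 4), pow_mul 2 33 4, ← hk]
  have e2 : (3 * (4 * k + 60 * k)) ^ (3 * (4 * k + 60 * k)) ≤ 2 ^ (41 * (3 * (4 * k + 60 * k))) := by
    rw [pow_mul 2 41]
    exact Nat.pow_le_pow_left (show 3 * (4 * k + 60 * k) ≤ 2 ^ 41 by omega) _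
  rw [e1] at this
  have := (Nat.pow_le_pow_iff_right (by norm_num)).1 (this.trans e2)
  omega

theorem result : ∃ (n : ℕ) (G : SimpleGraph (Fin n)), IsDV G ∧ ¬ IsVI G := by
  obtain ⟨k, hk⟩ : ∃ k : ℕ, k = 2 ^ 33 := ⟨_, rfl⟩
  obtain ⟨G, ⟨l, v, w, r, h1, h2, h3⟩, hn⟩ := main k hk
  let e := (Fintype.equivFin (W k (60 * k))).symm
  refine ⟨_, G.comap e, ⟨l ∘ e, v ∘ e, w ∘ e, r ∘ e, fun a => h1 _, fun a b h => e.injective (h2 h),
    fun a b hab => h3 _ _ (fun h => hab (e.injective h))⟩, ?_⟩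
  rintro ⟨l, v, r, h1, h2, h3⟩
  refine hn ⟨l ∘ e.symm, v ∘ e.symm, r ∘ e.symm, fun a => h1 _,
    fun a b h => e.symm.injective (h2 h), fun a b hab => ?_⟩
  have := h3 (e.symm a) (e.symm b) (fun h => hab (e.symm.injective h))
  simpa using this

end Pool.Agent.Results.MP_db841c_co.Double
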